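import Pool.Agent.Helper118.Yud.C5
import Pool.Agent.Helper118.Yud.KF
import Pool.Agent.Helper383.TY.W8

set_option autoImplicit false

/-!
# A Yudovich solution with a particle trajectory that is not real-analytic in time (MP_ecf4b9_an, Q1)

On the flat torus `ℝ²/ℤ²` there is a global (two sided in time) Yudovich solution of the incompressible Euler
equations, even with jointly continuous vorticity, and a particle trajectory of it that is not real-analytic
at time `t = 1`.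
-/

namespace Pool.Agent.Results.MP_ecf4b9_an.NotAnalytic

open MeasureTheory

/-- `ℤ²`-periodic functions on the plane (functions on the flat torus `ℝ²/ℤ²`). -/
def Per (f : ℝ → ℝ → ℝ) : Prop := ∀ x y, f (x + 1) y = f x y ∧ f x (y + 1) = f x y

/-- A global (two sided in time) Yudovich solution of the incompressible Euler equations on the flat
torus `ℝ²/ℤ²`: velocity `(u, v)`, vorticity `w`, as `ℤ²`-periodic functions of `(x, y)`, for all `t ∈ ℝ`.
The velocity is continuous, the vorticity is bounded and measurable, `div (u, v) = 0` and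
`curl (u, v) = ∂ₓv - ∂_yu = w` weakly at each time, and the momentum equation
`∂ₜ(u,v) + ((u,v)·∇)(u,v) = -∇p` holds weakly: it is tested with all smooth divergence free periodic
vector fields `(φ₁, φ₂)` with compact support in time. -/
structure IsYudovichSolution (u v w : ℝ → ℝ → ℝ → ℝ) : Prop where
  periodic : ∀ t, Per (u t) ∧ Per (v t) ∧ Per (w t)
  continuous_u : Continuous (fun q : ℝ × ℝ × ℝ => u q.1 q.2.1 q.2.2)
  continuous_v : Continuous (fun q : ℝ × ℝ × ℝ => v q.1 q.2.1 q.2.2)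
  measurable_w : Measurable (fun q : ℝ × ℝ × ℝ => w q.1 q.2.1 q.2.2)
  bounded_w : ∃ M : ℝ, ∀ t x y, |w t x y| ≤ M
  div_eq_zero : ∀ t, ∀ ψ : ℝ → ℝ → ℝ, ContDiff ℝ (⊤ : ℕ∞) (fun q : ℝ × ℝ => ψ q.1 q.2) → Per ψ →
    ∫ x in (0:ℝ)..1, ∫ y in (0:ℝ)..1,
      (u t x y * deriv (fun s => ψ s y) x + v t x y * deriv (fun s => ψ x s) y) = 0
  curl_eq : ∀ t, ∀ ψ : ℝ → ℝ → ℝ, ContDiff ℝ (⊤ : ℕ∞) (fun q : ℝ × ℝ => ψ q.1 q.2) → Per ψ →
    ∫ x in (0:ℝ)..1, ∫ y in (0:ℝ)..1,
      (v t x y * deriv (fun s => ψ s y) x - u t x y * deriv (fun s => ψ x s) y) =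
    - ∫ x in (0:ℝ)..1, ∫ y in (0:ℝ)..1, w t x y * ψ x y
  momentum : ∀ φ₁ φ₂ : ℝ → ℝ → ℝ → ℝ,
    ContDiff ℝ (⊤ : ℕ∞) (fun q : ℝ × ℝ × ℝ => φ₁ q.1 q.2.1 q.2.2) →
    ContDiff ℝ (⊤ : ℕ∞) (fun q : ℝ × ℝ × ℝ => φ₂ q.1 q.2.1 q.2.2) →
    (∀ t, Per (φ₁ t) ∧ Per (φ₂ t)) →
    (∃ R : ℝ, ∀ t, R ≤ |t| → ∀ x y, φ₁ t x y = 0 ∧ φ₂ t x y = 0) →
    (∀ t x y, deriv (fun s => φ₁ t s y) x + deriv (fun s => φ₂ t x s) y = 0) →
    ∫ t : ℝ, ∫ x in (0:ℝ)..1, ∫ y in (0:ℝ)..1,
      (u t x y * deriv (fun s => φ₁ s x y) t + v t x y * deriv (fun s => φ₂ s x y) t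
        + u t x y * u t x y * deriv (fun s => φ₁ t s y) x
        + u t x y * v t x y * (deriv (fun s => φ₁ t x s) y + deriv (fun s => φ₂ t s y) x)
        + v t x y * v t x y * deriv (fun s => φ₂ t x s) y) = 0

/-- time translation -/
theorem shift (u v w : ℝ → ℝ → ℝ → ℝ) (h : Pool.Agent.Helper118.Yud.IsYudovichSolution u v w) (s : ℝ) :
    IsYudovichSolution (fun t => u (t + s)) (fun t => v (t + s)) (fun t => w (t + s)) := by
  have hshift : Continuous (fun q : ℝ × ℝ × ℝ => ((q.1 + s, q.2) : ℝ × ℝ × ℝ)) := by fun_prop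
  refine ⟨fun t => h.periodic _, h.continuous_u.comp hshift, h.continuous_v.comp hshift,
    h.measurable_w.comp hshift.measurable, ?_, fun t => h.div_eq_zero _, fun t => h.curl_eq _, ?_⟩
  · obtain ⟨M, hM⟩ := h.bounded_w
    exact ⟨M, fun t x y => hM _ _ _⟩
  · intro φ₁ φ₂ h1 h2 hp hs hd
    have hshift' : ContDiff ℝ (⊤ : ℕ∞) (fun q : ℝ × ℝ × ℝ => ((q.1 - s, q.2) : ℝ × ℝ × ℝ)) := by
      fun_prop
    obtain ⟨R, hR⟩ := hs
    have key := h.momentum (fun t => φ₁ (t - s)) (fun t => φ₂ (t - s)) (h1.comp hshift')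
      (h2.comp hshift') (fun t => hp _)
      ⟨R + |s|, fun t ht x y => hR _ (by
        have := abs_sub_abs_le_abs_sub t s
        linarith) x y⟩ (fun t x y => hd _ x y)
    rw [← integral_add_right_eq_self _ s] at key
    refine Eq.trans ?_ key
    congr 1
    funext t
    have e1 : ∀ x y, deriv (fun r => φ₁ (r - s) x y) (t + s) = deriv (fun r => φ₁ r x y) t := by
      intro x y
      have := deriv_comp_sub_const (f := fun r => φ₁ r x y) s (t + s)
      rw [add_sub_cancel_right] at this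
      exact this
    have e2 : ∀ x y, deriv (fun r => φ₂ (r - s) x y) (t + s) = deriv (fun r => φ₂ r x y) t := by
      intro x y
      have := deriv_comp_sub_const (f := fun r => φ₂ r x y) s (t + s)
      rw [add_sub_cancel_right] at this
      exact this
    simp only [e1, e2, add_sub_cancel_right]

/-- **Particle trajectories of Yudovich solutions need not be real-analytic in time.** On the flat torus
`ℝ²/ℤ²` there are a Yudovich solution `(u, v)` of the Euler equations, for all times `t ∈ ℝ`, with vorticity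
`w` (bounded, and even continuous in `(t, x, y)`), and a particle trajectory `(x(t), y(t))`, `t ∈ ℝ`, of it
which is not real-analytic at `t = 1`. -/
theorem result : ∃ u v w : ℝ → ℝ → ℝ → ℝ, IsYudovichSolution u v w ∧
    Continuous (fun q : ℝ × ℝ × ℝ => w q.1 q.2.1 q.2.2) ∧
    ∃ x y : ℝ → ℝ,
      (∀ t, HasDerivAt x (u t (x t) (y t)) t ∧ HasDerivAt y (v t (x t) (y t)) t) ∧
      ¬ AnalyticAt ℝ (fun t => (x t, y t)) 1 := by
  obtain ⟨K, C, hK⟩ := Pool.Agent.Helper118.Yud.exists_kernel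
  obtain ⟨ω, ξ, hξ, t0, ht0⟩ := Pool.Agent.Helper118.Yud.not_all_analytic hK
  obtain ⟨u, v, w, hsol, hcw, htraj⟩ := Pool.Agent.Helper118.Yud.JW8.yudovich_of_lagr hK
    (fun x => ω x) ω.continuous ξ hξ
  have hshift : Continuous (fun q : ℝ × ℝ × ℝ => ((q.1 + (t0 - 1), q.2) : ℝ × ℝ × ℝ)) := by fun_prop
  have h0 : (((0:ℝ) : UnitAddCircle), ((0:ℝ) : UnitAddCircle)) = (0 : Pool.Agent.Helper118.Yud.T2) := rfl
  refine ⟨_, _, _, shift u v w hsol (t0 - 1), hcw.comp hshift,
    fun t => (ξ (t + (t0 - 1)) 0).re, fun t => (ξ (t + (t0 - 1)) 0).im, fun t => ?_, fun han => ht0 ?_⟩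
  · have h := htraj 0 0 (t + (t0 - 1))
    simp only [h0, zero_add] at h
    exact ⟨h.1.comp_add_const t (t0 - 1), h.2.comp_add_const t (t0 - 1)⟩
  · have hl : AnalyticAt ℝ (fun s : ℝ => s - (t0 - 1)) t0 := by fun_prop
    have e : t0 - (t0 - 1) = 1 := by ring
    have h2 : AnalyticAt ℝ (fun s : ℝ => ((ξ s 0).re, (ξ s 0).im)) t0 := by
      have := AnalyticAt.fun_comp (g := fun t => ((ξ (t + (t0 - 1)) 0).re, (ξ (t + (t0 - 1)) 0).im))
        (f := fun s : ℝ => s - (t0 - 1)) (x := t0) (by simpa only [e] using han) hl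
      simpa only [sub_add_cancel] using this
    have h3 : AnalyticAt ℝ (fun s : ℝ => Complex.equivRealProdCLM.symm ((ξ s 0).re, (ξ s 0).im)) t0 :=
      (Complex.equivRealProdCLM.symm.toContinuousLinearMap.analyticAt _).fun_comp h2
    refine h3.congr (Filter.Eventually.of_forall fun s => ?_)
    exact Complex.equivRealProdCLM.symm_apply_apply (ξ s 0)

end Pool.Agent.Results.MP_ecf4b9_an.NotAnalytic
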